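import Pool.Agent.Helper59.MB.Goals2

/-!
# Project MB (MP_49a1ce_an), packet MOF: modified digits lie in bad blocks
-/

set_option autoImplicit false

open MeasureTheory Filter Topology Finset

namespace Pool.Agent.Helper49.MB

open Pool.Agent.Helper59.MB

theorem from'_from' (a b : ℕ) (w : Wd) : from' a (from' b w) = from' (b + a) w := by
  funext j
  show w (b + (a + j)) = w (b + a + j)
  rw [add_assoc]

theorem from'_zero (w : Wd) : from' 0 w = w := by
  funext j
  show w (0 + j) = w j
  rw [zero_add]

theorem place_eq (p q i : ℕ) (hp : 0 < p) (hpq : p ∣ q) :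
    q * (i / q) + p * ((i % q) / p) = p * (i / p) := by
  obtain ⟨c, rfl⟩ := hpq
  have h1 : i / p = c * (i / (p * c)) + (i % (p * c)) / p := by
    conv_lhs => rw [← Nat.div_add_mod i (p * c)]
    rw [mul_assoc, Nat.mul_add_div hp]
  rw [h1, mul_add, mul_assoc]

theorem t_MOF : S_MOF := by
  intro s V m _ hs k
  induction k with
  | zero =>
    intro d i w _ h
    exact absurd rfl h
  | succ k ih =>
    intro d i w hi h
    have hstep : cat s k (Phi s V m k) w i d ≠ w i d → ∃ j, d ≤ j ∧ j < k + 1 ∧
        ¬ Good s V m j (cat s j (Phi s V m j) (from' (P s (j + 1) * (i / P s (j + 1))) w)) := by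
      intro h1
      have hPk : 0 < P s k := Nat.pow_pos (by norm_num)
      have h2 : w i d = from' (P s k * (i / P s k)) w (i % P s k) d := by
        show w i d = w (P s k * (i / P s k) + i % P s k) d
        rw [Nat.div_add_mod]
      have h3 : Phi s V m k (from' (P s k * (i / P s k)) w) (i % P s k) d ≠
          from' (P s k * (i / P s k)) w (i % P s k) d := by
        rw [← h2]
        exact h1
      obtain ⟨j, hj1, hj2, hj3⟩ := ih d (i % P s k) _ (Nat.mod_lt _ hPk) h3
      refine ⟨j, hj1, by omega, ?_⟩
      rw [from'_from', place_eq (P s (j + 1)) (P s k) i (Nat.pow_pos (by norm_num))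
        (Nat.pow_dvd_pow 2 (hs.monotone (by omega)))] at hj3
      exact hj3
    by_cases hg : Good s V m k (cat s k (Phi s V m k) w)
    · have h1 : Phi s V m (k + 1) w = cat s k (Phi s V m k) w := if_pos hg
      rw [h1] at h
      exact hstep h
    · have h1 : Phi s V m (k + 1) w = fun i j => if j < k + 1 then gw s V m k (Phi s V m k) i j
          else cat s k (Phi s V m k) w i j := if_neg hg
      by_cases hd : d < k + 1
      · refine ⟨k, by omega, by omega, ?_⟩
        rw [Nat.div_eq_of_lt hi, mul_zero, from'_zero]
        exact hg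
      · rw [h1] at h
        simp only [if_neg hd] at h
        exact hstep h

end Pool.Agent.Helper49.MB
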