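import Pool.Agent.Helper70.MB.Goals

/-!
Project MB: vanishing moments of a Laplace transform (goal `MOMV`).
-/

open MeasureTheory Set Metric Filter
open scoped ENNReal FourierTransform Topology ContDiff
open Pool.Agent.Results.MP_91ee6f_gt

namespace Pool.Agent.Helper49.MB

open Pool.Agent.Helper70.MB

/-- The (signed) Taylor remainders of `exp (-x)`. -/
noncomputable def rem : ℕ → ℝ → ℝ
  | 0 => fun x => Real.exp (-x)
  | j + 1 => fun x => x ^ j / (j.factorial : ℝ) - rem j x

lemma rem_zero (x : ℝ) : rem 0 x = Real.exp (-x) := rfl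

lemma rem_succ (j : ℕ) (x : ℝ) : rem (j + 1) x = x ^ j / (j.factorial : ℝ) - rem j x := rfl

lemma continuous_rem (j : ℕ) : Continuous (rem j) := by
  induction j with
  | zero =>
    have : rem 0 = fun x => Real.exp (-x) := rfl
    rw [this]
    fun_prop
  | succ j ih =>
    have : rem (j + 1) = fun x => x ^ j / (j.factorial : ℝ) - rem j x := rfl
    rw [this]
    exact ((continuous_id.pow j).div_const _).sub ih

lemma hasDerivAt_rem (j : ℕ) (x : ℝ) : HasDerivAt (rem (j + 1)) (rem j x) x := by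
  induction j with
  | zero =>
    have e : rem (0 + 1) = fun x => 1 - Real.exp (-x) := by
      funext y
      rw [rem_succ, rem_zero]
      simp
    rw [e, rem_zero]
    have h := ((hasDerivAt_id x).neg.exp).const_sub 1
    simpa using h
  | succ j ih =>
    have e : rem (j + 1 + 1) = fun x => x ^ (j + 1) / ((j + 1).factorial : ℝ) - rem (j + 1) x := rfl
    rw [e, rem_succ j x]
    have h1 := ((hasDerivAt_pow (j + 1) x).div_const ((j + 1).factorial : ℝ)).sub ih
    have e2 : ((j + 1 : ℕ) : ℝ) * x ^ (j + 1 - 1) / ((j + 1).factorial : ℝ) - rem j x =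
        x ^ j / (j.factorial : ℝ) - rem j x := by
      rw [Nat.factorial_succ]
      have h0 : ((j + 1 : ℕ) : ℝ) ≠ 0 := by positivity
      have h1 : (j.factorial : ℝ) ≠ 0 := by positivity
      rw [Nat.add_sub_cancel]
      push_cast at h0 ⊢
      field_simp
    rw [e2] at h1
    exact h1

lemma rem_succ_at_zero (j : ℕ) : rem (j + 1) 0 = 0 := by
  induction j with
  | zero => simp [rem_succ, rem_zero]
  | succ j ih => rw [rem_succ, ih]; simp

lemma rem_nonneg (j : ℕ) {x : ℝ} (hx : 0 ≤ x) : 0 ≤ rem j x := by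
  induction j generalizing x with
  | zero => exact (Real.exp_pos _).le
  | succ j ih =>
    have hm : MonotoneOn (rem (j + 1)) (Ici 0) := by
      refine monotoneOn_of_deriv_nonneg (convex_Ici 0) (continuous_rem _).continuousOn
        (fun y _ => (hasDerivAt_rem j y).differentiableAt.differentiableWithinAt) fun y hy => ?_
      rw [(hasDerivAt_rem j y).deriv]
      rw [interior_Ici] at hy
      exact ih (le_of_lt hy)
    have := hm (mem_Ici.2 le_rfl) (mem_Ici.2 hx) hx
    rwa [rem_succ_at_zero] at this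

lemma rem_le (j : ℕ) {x : ℝ} (hx : 0 ≤ x) : rem j x ≤ x ^ j / (j.factorial : ℝ) := by
  have := rem_nonneg (j + 1) hx
  rw [rem_succ] at this
  linarith

lemma rem_succ_le (j : ℕ) {x : ℝ} (hx : 0 ≤ x) : rem (j + 1) x ≤ x ^ j / (j.factorial : ℝ) := by
  have := rem_nonneg j hx
  rw [rem_succ]
  linarith

/-- Vanishing moments, general measure spaces. -/
lemma moments {α : Type*} [MeasurableSpace α] {μ : Measure α} {l f : α → ℝ} (hl : Measurable l)
    (hl0 : ∀ x, 0 ≤ l x) (hf : Measurable f) (N : ℕ)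
    (hint : ∀ j ≤ N, Integrable (fun x => l x ^ j * f x) μ) {r C : ℝ} (hr : (N : ℝ) < r)
    (hF : ∀ t : ℝ, 0 < t → t ≤ 1 → |∫ x, Real.exp (-(t * l x)) * f x ∂μ| ≤ C * t ^ r) :
    ∀ j ≤ N, ∫ x, l x ^ j * f x ∂μ = 0 := by
  -- integrability of the remainders
  have hri : ∀ j ≤ N, ∀ t : ℝ, 0 ≤ t → Integrable (fun x => rem j (t * l x) * f x) μ := by
    intro j hj t ht
    refine ((hint j hj).norm.const_mul (t ^ j / (j.factorial : ℝ))).mono' ?_
      (Eventually.of_forall fun x => ?_)
    · exact (((continuous_rem j).measurable.comp (hl.const_mul t)).mul hf).aestronglyMeasurable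
    · have h0 : 0 ≤ t * l x := mul_nonneg ht (hl0 x)
      rw [norm_mul, norm_mul, Real.norm_eq_abs, abs_of_nonneg (rem_nonneg j h0), ← mul_assoc]
      refine mul_le_mul_of_nonneg_right ((rem_le j h0).trans (le_of_eq ?_)) (norm_nonneg _)
      rw [Real.norm_eq_abs, abs_of_nonneg (pow_nonneg (hl0 x) j), mul_pow]
      ring
  have hri' : ∀ j ≤ N, ∀ t : ℝ, 0 ≤ t → Integrable (fun x => rem (j + 1) (t * l x) * f x) μ := by
    intro j hj t ht
    refine ((hint j hj).norm.const_mul (t ^ j / (j.factorial : ℝ))).mono' ?_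
      (Eventually.of_forall fun x => ?_)
    · exact (((continuous_rem (j + 1)).measurable.comp
        (hl.const_mul t)).mul hf).aestronglyMeasurable
    · have h0 : 0 ≤ t * l x := mul_nonneg ht (hl0 x)
      rw [norm_mul, norm_mul, Real.norm_eq_abs, abs_of_nonneg (rem_nonneg (j + 1) h0), ← mul_assoc]
      refine mul_le_mul_of_nonneg_right ((rem_succ_le j h0).trans (le_of_eq ?_)) (norm_nonneg _)
      rw [Real.norm_eq_abs, abs_of_nonneg (pow_nonneg (hl0 x) j), mul_pow]
      ring
  -- the recursion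
  have hrec : ∀ j ≤ N, ∀ t : ℝ, 0 ≤ t → ∫ x, rem (j + 1) (t * l x) * f x ∂μ =
      t ^ j / (j.factorial : ℝ) * ∫ x, l x ^ j * f x ∂μ - ∫ x, rem j (t * l x) * f x ∂μ := by
    intro j hj t ht
    rw [← integral_const_mul, ← integral_sub ((hint j hj).const_mul _) (hri j hj t ht)]
    refine integral_congr_ae (Eventually.of_forall fun x => ?_)
    simp only [rem_succ]
    rw [mul_pow]
    ring
  -- limits
  have hlim : ∀ j ≤ N, Tendsto (fun t : ℝ => ∫ x, rem (j + 1) (t * l x) / t ^ j * f x ∂μ)
      (𝓝[>] 0) (𝓝 0) := by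
    intro j hj
    suffices H : Tendsto (fun t : ℝ => ∫ x, rem (j + 1) (t * l x) / t ^ j * f x ∂μ)
        (𝓝[>] 0) (𝓝 (∫ x, (0 : ℝ) ∂μ)) by
      simpa using H
    refine tendsto_integral_filter_of_dominated_convergence
      (fun x => 1 / (j.factorial : ℝ) * ‖l x ^ j * f x‖) ?_ ?_ ((hint j hj).norm.const_mul _) ?_
    · refine Eventually.of_forall fun t => ?_
      exact ((((continuous_rem (j + 1)).measurable.comp
        (hl.const_mul t)).div_const _).mul hf).aestronglyMeasurable
    · filter_upwards [self_mem_nhdsWithin] with t ht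
      have ht : 0 < t := ht
      refine Eventually.of_forall fun x => ?_
      have h0 : 0 ≤ t * l x := mul_nonneg ht.le (hl0 x)
      rw [norm_mul, norm_mul, ← mul_assoc]
      refine mul_le_mul_of_nonneg_right ?_ (norm_nonneg _)
      rw [Real.norm_eq_abs, Real.norm_eq_abs, abs_of_nonneg (pow_nonneg (hl0 x) j),
        abs_of_nonneg (div_nonneg (rem_nonneg (j + 1) h0) (pow_nonneg ht.le j)),
        div_le_iff₀ (pow_pos ht j)]
      refine (rem_succ_le j h0).trans (le_of_eq ?_)
      rw [mul_pow]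
      ring
    · refine Eventually.of_forall fun x => ?_
      have hb : Tendsto (fun t : ℝ => t * (l x ^ (j + 1) / ((j + 1).factorial : ℝ) * ‖f x‖))
          (𝓝[>] 0) (𝓝 0) := by
        have h1 : Tendsto (fun t : ℝ => t * (l x ^ (j + 1) / ((j + 1).factorial : ℝ) * ‖f x‖))
            (𝓝 0) (𝓝 (0 * (l x ^ (j + 1) / ((j + 1).factorial : ℝ) * ‖f x‖))) :=
          tendsto_id.mul_const _
        rw [zero_mul] at h1
        exact h1.mono_left nhdsWithin_le_nhds
      refine squeeze_zero_norm' ?_ hb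
      filter_upwards [self_mem_nhdsWithin] with t ht
      have ht : 0 < t := ht
      have h0 : 0 ≤ t * l x := mul_nonneg ht.le (hl0 x)
      rw [norm_mul, ← mul_assoc]
      refine mul_le_mul_of_nonneg_right ?_ (norm_nonneg _)
      rw [Real.norm_eq_abs,
        abs_of_nonneg (div_nonneg (rem_nonneg (j + 1) h0) (pow_nonneg ht.le j)),
        div_le_iff₀ (pow_pos ht j)]
      refine (rem_le (j + 1) h0).trans (le_of_eq ?_)
      rw [mul_pow, pow_succ t j]
      ring
  -- the induction
  have step : ∀ j ≤ N,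
      (∀ t : ℝ, 0 < t → t ≤ 1 → |∫ x, rem j (t * l x) * f x ∂μ| ≤ C * t ^ r) →
        ∫ x, l x ^ j * f x ∂μ = 0 := by
    intro j hj hb
    have hjr : 0 < r - j := by
      have : (j : ℝ) ≤ N := by exact_mod_cast hj
      linarith
    have h1 : Tendsto (fun t : ℝ => (∫ x, rem j (t * l x) * f x ∂μ) / t ^ j) (𝓝[>] 0) (𝓝 0) := by
      have h2 : Tendsto (fun t : ℝ => C * t ^ (r - j)) (𝓝[>] 0) (𝓝 0) := by
        have h3 : Tendsto (fun t : ℝ => C * t ^ (r - j)) (𝓝 0) (𝓝 (C * (0 : ℝ) ^ (r - j))) :=
          ((Real.continuousAt_rpow_const 0 (r - j) (Or.inr hjr.le)).tendsto).const_mul C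
        rw [Real.zero_rpow hjr.ne', mul_zero] at h3
        exact h3.mono_left nhdsWithin_le_nhds
      refine squeeze_zero_norm' ?_ h2
      have hev : ∀ᶠ t : ℝ in 𝓝[>] 0, t ≤ 1 :=
        (eventually_le_nhds (show (0 : ℝ) < 1 by norm_num)).filter_mono nhdsWithin_le_nhds
      filter_upwards [self_mem_nhdsWithin, hev] with t ht ht1
      have ht : 0 < t := ht
      rw [norm_div, Real.norm_eq_abs, Real.norm_eq_abs, abs_of_pos (pow_pos ht j),
        div_le_iff₀ (pow_pos ht j)]
      refine (hb t ht ht1).trans (le_of_eq ?_)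
      rw [mul_assoc, ← Real.rpow_natCast t j, ← Real.rpow_add ht]
      congr 2
      ring
    have h4 : Tendsto (fun t : ℝ => (∫ x, rem (j + 1) (t * l x) / t ^ j * f x ∂μ) +
        (∫ x, rem j (t * l x) * f x ∂μ) / t ^ j) (𝓝[>] 0) (𝓝 (0 + 0)) := (hlim j hj).add h1
    have h5 : Tendsto (fun _ : ℝ => 1 / (j.factorial : ℝ) * ∫ x, l x ^ j * f x ∂μ)
        (𝓝[>] 0) (𝓝 (0 + 0)) := by
      refine h4.congr' ?_
      filter_upwards [self_mem_nhdsWithin] with t ht
      have ht : 0 < t := ht
      have e : ∫ x, rem (j + 1) (t * l x) / t ^ j * f x ∂μ =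
          (∫ x, rem (j + 1) (t * l x) * f x ∂μ) / t ^ j := by
        rw [← integral_div]
        refine integral_congr_ae (Eventually.of_forall fun x => ?_)
        simp only
        ring
      rw [e, hrec j hj t ht.le]
      have hne : t ^ j ≠ 0 := (pow_pos ht j).ne'
      field_simp
      ring
    have h6 := tendsto_nhds_unique tendsto_const_nhds h5
    have hne : (1 / (j.factorial : ℝ)) ≠ 0 := by positivity
    rw [add_zero] at h6
    exact (mul_eq_zero.1 h6).resolve_left hne
  have key : ∀ j ≤ N, (∀ t : ℝ, 0 < t → t ≤ 1 →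
      |∫ x, rem j (t * l x) * f x ∂μ| ≤ C * t ^ r) := by
    intro j
    induction j with
    | zero =>
      intro _ t ht ht1
      simpa only [rem_zero] using hF t ht ht1
    | succ j ih =>
      intro hj t ht ht1
      have hj' : j ≤ N := (Nat.le_succ j).trans hj
      rw [hrec j hj' t ht.le, step j hj' (ih hj'), mul_zero, zero_sub, abs_neg]
      exact ih hj' t ht ht1
  exact fun j hj => step j hj (key j hj)

/-- MOMV: vanishing moments of a Laplace transform. -/
theorem momv : MOMV := by
  intro n hn f hf hfi hF j hj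
  obtain ⟨C, hC⟩ := hF
  have hint : ∀ i ≤ j, Integrable (fun ξ : En n => br ξ ^ i * f ξ) := by
    intro i hi
    refine hfi.mono ?_ (Eventually.of_forall fun ξ => ?_)
    · exact ((continuous_br.pow i).measurable.mul hf).aestronglyMeasurable
    · rw [norm_mul, norm_mul]
      refine mul_le_mul_of_nonneg_right ?_ (norm_nonneg _)
      rw [Real.norm_eq_abs, Real.norm_eq_abs, abs_of_pos (pow_pos (br_pos ξ) i),
        abs_of_pos (br_rpow_pos ξ _), ← Real.rpow_natCast]
      refine br_rpow_mono ξ ?_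
      have : (i : ℝ) ≤ j := by exact_mod_cast hi
      exact this.trans hj
  exact moments continuous_br.measurable (fun ξ => (br_pos ξ).le) hf j hint
    (r := sx n + 1) (by linarith) hC j le_rfl

end Pool.Agent.Helper49.MB
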