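import Pool.Agent.Helper50.MB.Goals

/-!
# Project MB, packet MB-POS: positivity
-/

set_option autoImplicit false

namespace Pool.Agent.Helper49.MB

open Pool.Agent.Helper50.MB

theorem cT_pos (hFIN : FIN) {h : Bool} {N : ℕ} (a : ℤ → ℤ) (ha : SZ N a) (hh : h = true → HF a) :
    0 < cT h N := by
  have := (hFIN h N).1
  have : Nonempty (T h N) := ⟨⟨a, ha, hh⟩⟩
  exact Nat.card_pos

theorem pos_zero (hFIN : FIN) (h : Bool) : 0 < cT h 0 := by
  refine cT_pos hFIN id ⟨⟨fun _ => rfl, fun _ _ => rfl, ?_, ?_⟩, ?_⟩ fun _ _ => Iff.rfl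
  · intro z h1 h2
    simp at h1 h2
    omega
  · intro x y h1 h2
    simp at h2
    omega
  · intro x y h1 h2
    simp at h1 h2
    omega

theorem pos_one (hFIN : FIN) : 0 < cT false 1 := by
  refine cT_pos hFIN (fun z => if z = 0 then -1 else if z = -1 then 0 else z)
    ⟨⟨?_, ?_, ?_, ?_⟩, ?_⟩ (by simp)
  · intro z
    rcases eq_or_ne z 0 with rfl | h0
    · norm_num
    rcases eq_or_ne z (-1) with rfl | h1
    · norm_num
    · simp only [if_neg h0, if_neg h1]
  · intro z hz
    split_ifs <;> push_cast at hz <;> omega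
  · intro z h1 h2
    split_ifs <;> push_cast at h1 h2 <;> omega
  · intro x y h1 h2
    split_ifs at h2 ⊢ <;> omega
  · intro x y h1 h2 h3 h4
    push_cast at h1 h2 h3 h4
    have e1 : Conn (fun z : ℤ => if z = 0 then -1 else if z = -1 then 0 else z)
        (fun z => -1 - z) 0 (-1) := Relation.ReflTransGen.single (Or.inr (by norm_num))
    have e2 : Conn (fun z : ℤ => if z = 0 then -1 else if z = -1 then 0 else z)
        (fun z => -1 - z) (-1) 0 := Relation.ReflTransGen.single (Or.inr (by norm_num))
    obtain rfl | rfl : x = -1 ∨ x = 0 := by omega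
    · obtain rfl | rfl : y = -1 ∨ y = 0 := by omega
      · exact Relation.ReflTransGen.refl
      · exact e2
    · obtain rfl | rfl : y = -1 ∨ y = 0 := by omega
      · exact e1
      · exact Relation.ReflTransGen.refl

theorem pos_two (hFIN : FIN) : 0 < cT true 2 := by
  refine cT_pos hFIN (fun z => if z = 0 then 1 else if z = 1 then 0 else if z = -1 then -2 else
    if z = -2 then -1 else z) ⟨⟨?_, ?_, ?_, ?_⟩, ?_⟩ ?_
  · intro z
    rcases eq_or_ne z 0 with rfl | h0
    · norm_num
    rcases eq_or_ne z 1 with rfl | h1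
    · norm_num
    rcases eq_or_ne z (-1) with rfl | h2
    · norm_num
    rcases eq_or_ne z (-2) with rfl | h3
    · norm_num
    · simp only [if_neg h0, if_neg h1, if_neg h2, if_neg h3]
  · intro z hz
    split_ifs <;> push_cast at hz <;> omega
  · intro z h1 h2
    split_ifs <;> push_cast at h1 h2 <;> omega
  · intro x y h1 h2
    split_ifs at h2 ⊢ <;> omega
  · intro x y h1 h2 h3 h4
    push_cast at h1 h2 h3 h4
    generalize hf : (fun z : ℤ => if z = 0 then (1 : ℤ) else if z = 1 then 0 else
      if z = -1 then -2 else if z = -2 then -1 else z) = f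
    have f0 : f 0 = 1 := by rw [← hf]; norm_num
    have f1 : f 1 = 0 := by rw [← hf]; norm_num
    have f2 : f (-1) = -2 := by rw [← hf]; norm_num
    have f3 : f (-2) = -1 := by rw [← hf]; norm_num
    have e1 : Conn f (fun z => -1 - z) 0 1 := Relation.ReflTransGen.single (Or.inl f0.symm)
    have e2 : Conn f (fun z => -1 - z) 1 (-2) :=
      Relation.ReflTransGen.single (Or.inr (by norm_num))
    have e3 : Conn f (fun z => -1 - z) (-2) (-1) := Relation.ReflTransGen.single (Or.inl f3.symm)
    have e4 : Conn f (fun z => -1 - z) (-1) 0 :=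
      Relation.ReflTransGen.single (Or.inr (by norm_num))
    have to0 : ∀ x : ℤ, -2 ≤ x → x < 2 → Conn f (fun z => -1 - z) x 0 := by
      intro x hx hx'
      obtain rfl | rfl | rfl | rfl : x = -2 ∨ x = -1 ∨ x = 0 ∨ x = 1 := by omega
      · exact e3.trans e4
      · exact e4
      · exact Relation.ReflTransGen.refl
      · exact e2.trans (e3.trans e4)
    have fr0 : ∀ x : ℤ, -2 ≤ x → x < 2 → Conn f (fun z => -1 - z) 0 x := by
      intro x hx hx'
      obtain rfl | rfl | rfl | rfl : x = -2 ∨ x = -1 ∨ x = 0 ∨ x = 1 := by omega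
      · exact e1.trans e2
      · exact e1.trans (e2.trans e3)
      · exact Relation.ReflTransGen.refl
      · exact e1
    exact (to0 x h1 h2).trans (fr0 y h3 h4)
  · intro _ z
    beta_reduce
    split_ifs <;> omega

theorem goalPOS (hSUP : SUP) (hFIN : FIN) : POS := by
  constructor
  · intro n
    induction n with
    | zero => exact pos_zero hFIN false
    | succ n ih => exact (Nat.mul_pos ih (pos_one hFIN)).trans_le (hSUP false n 1)
  · intro n
    induction n with
    | zero => exact pos_zero hFIN true
    | succ n ih => exact (Nat.mul_pos ih (pos_two hFIN)).trans_le (hSUP true (2 * n) 2)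

end Pool.Agent.Helper49.MB
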