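import Pool.Agent.Helper59.MB.Goals1

/-!
# Project MB (MP_49a1ce_an), packet XCL: the model space is closed
-/

set_option autoImplicit false

open MeasureTheory Filter Topology Finset

namespace Pool.Agent.Helper49.MB

open Pool.Agent.Helper59.MB

/-- extension of a finite table of digits to a word -/
def extW (N k : ℕ) (v : Fin N → Fin k → Bool) : Wd := fun a j =>
  if h : a < N ∧ j < k then v ⟨a, h.1⟩ ⟨j, h.2⟩ else false

theorem t_XCL (hLOP : S_LOP) (hPHS : S_PHS) : S_XCL := by
  intro s V m _ hs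
  obtain ⟨_, _, _, hcont, _, _⟩ := hPHS
  have hX : X s V m = ⋂ (k : ℕ), ⋂ (n : ℤ), {x : Bas | ph (s (k + 1)) (x.2 + (n : ℤ_[2])) = 0 →
      Good s V m k (fromZ n x.1)} := by
    ext x
    simp only [X, Set.mem_setOf_eq, Set.mem_iInter]
  rw [hX]
  refine isClosed_iInter fun k => isClosed_iInter fun n => ?_
  have h1 : IsOpen {x : Bas | ph (s (k + 1)) (x.2 + (n : ℤ_[2])) = 0} := by
    have h2 : Continuous fun x : Bas => ph (s (k + 1)) (x.2 + (n : ℤ_[2])) :=
      (hcont (s (k + 1))).comp (by fun_prop)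
    exact (isOpen_discrete ({0} : Set ℕ)).preimage h2
  have h3 : IsClosed {x : Bas | Good s V m k (fromZ n x.1)} := by
    have h4 : {x : Bas | Good s V m k (fromZ n x.1)} =
        (fun (x : Bas) (a : Fin (P s (k + 1))) (j : Fin k) => x.1 (n + ((a : ℕ) : ℤ)) j.val) ⁻¹'
          {v | Good s V m k (extW (P s (k + 1)) k v)} := by
      ext x
      simp only [Set.mem_setOf_eq, Set.mem_preimage]
      refine ((hLOP s V m hs).1 k (1 / (k + 1)) (E s V m k) (fromZ n x.1) _ ?_)
      intro a ha j hj
      unfold extW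
      rw [dif_pos ⟨ha, hj⟩]
      rfl
    rw [h4]
    refine IsClosed.preimage ?_ (isClosed_discrete _)
    refine continuous_pi fun a => continuous_pi fun j => ?_
    exact (continuous_apply j.val).comp ((continuous_apply (n + ((a : ℕ) : ℤ))).comp continuous_fst)
  have h5 : {x : Bas | ph (s (k + 1)) (x.2 + (n : ℤ_[2])) = 0 → Good s V m k (fromZ n x.1)} =
      {x : Bas | ph (s (k + 1)) (x.2 + (n : ℤ_[2])) = 0}ᶜ ∪
        {x : Bas | Good s V m k (fromZ n x.1)} := by
    ext x
    simp only [Set.mem_setOf_eq, Set.mem_union, Set.mem_compl_iff]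
    exact imp_iff_not_or
  rw [h5]
  exact h1.isClosed_compl.union h3

end Pool.Agent.Helper49.MB
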